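import Mathlib

/-!
# Sliding lemma

A chain of equations `D i (θ i) (θ (i+1)) = l i`, `i < m`, where every `D i` is continuous in each
variable separately and monotone in opposite directions in the two variables, can be slid down
(coordinatewise, inside the boxes `[a i, θ i]`) until some coordinate reaches its lower end `a i`.
-/

namespace Pool.Agent.Helper64.Ruler

/-- `D` is continuous in each variable on the box and goes up in one variable and down in the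
other one. -/
def Opp (D : ℝ → ℝ → ℝ) (a x b y : ℝ) : Prop :=
  (∀ u ∈ Set.Icc a x, ContinuousOn (fun v => D u v) (Set.Icc b y)) ∧
  (∀ v ∈ Set.Icc b y, ContinuousOn (fun u => D u v) (Set.Icc a x)) ∧
  (((∀ v ∈ Set.Icc b y, AntitoneOn (fun u => D u v) (Set.Icc a x)) ∧
    (∀ u ∈ Set.Icc a x, MonotoneOn (fun v => D u v) (Set.Icc b y))) ∨
   ((∀ v ∈ Set.Icc b y, MonotoneOn (fun u => D u v) (Set.Icc a x)) ∧
    (∀ u ∈ Set.Icc a x, AntitoneOn (fun v => D u v) (Set.Icc b y))))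

/-- one step, first sign -/
lemma step_pos {D : ℝ → ℝ → ℝ} {a x b y l L : ℝ} (hL : L ∈ Set.Icc a x) (hby : b ≤ y)
    (c1 : ∀ u ∈ Set.Icc a x, ContinuousOn (fun v => D u v) (Set.Icc b y))
    (c2 : ∀ v ∈ Set.Icc b y, ContinuousOn (fun u => D u v) (Set.Icc a x))
    (m1 : ∀ v ∈ Set.Icc b y, AntitoneOn (fun u => D u v) (Set.Icc a x))
    (m2 : ∀ u ∈ Set.Icc a x, MonotoneOn (fun v => D u v) (Set.Icc b y))
    (h : D x y = l) :
    ∃ L' ∈ Set.Icc b y, (∀ v ∈ Set.Icc L' y, ∃ u ∈ Set.Icc L x, D u v = l) ∧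
      (D L L' = l ∨ L' = b) := by
  have hx : x ∈ Set.Icc a x := ⟨hL.1.trans hL.2, le_refl _⟩
  have hy : y ∈ Set.Icc b y := ⟨hby, le_refl _⟩
  have hb : b ∈ Set.Icc b y := ⟨le_refl _, hby⟩
  have hLy : l ≤ D L y := by rw [← h]; exact m1 y hy hL hx hL.2
  have key : ∀ v ∈ Set.Icc b y, l ≤ D L v → ∃ u ∈ Set.Icc L x, D u v = l := by
    intro v hv hv1
    have h2 : D x v ≤ l := by rw [← h]; exact m2 x hx hv hy hv.2
    have hc : ContinuousOn (fun u => D u v) (Set.Icc L x) :=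
      (c2 v hv).mono (Set.Icc_subset_Icc_left hL.1)
    exact intermediate_value_Icc' hL.2 hc ⟨h2, hv1⟩
  by_cases hc : D L b ≤ l
  · obtain ⟨y0, hy0, e⟩ := intermediate_value_Icc hby (c1 L hL) ⟨hc, hLy⟩
    refine ⟨y0, hy0, fun v hv => ?_, Or.inl e⟩
    have hv' : v ∈ Set.Icc b y := ⟨hy0.1.trans hv.1, hv.2⟩
    refine key v hv' ?_
    rw [← e]
    exact m2 L hL hy0 hv' hv.1
  · refine ⟨b, hb, fun v hv => key v hv ?_, Or.inr rfl⟩
    exact (not_le.1 hc).le.trans (m2 L hL hb hv hv.1)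

lemma step {D : ℝ → ℝ → ℝ} {a x b y l L : ℝ} (hL : L ∈ Set.Icc a x) (hby : b ≤ y)
    (hD : Opp D a x b y) (h : D x y = l) :
    ∃ L' ∈ Set.Icc b y, (∀ v ∈ Set.Icc L' y, ∃ u ∈ Set.Icc L x, D u v = l) ∧
      (D L L' = l ∨ L' = b) := by
  obtain ⟨c1, c2, (⟨m1, m2⟩ | ⟨m1, m2⟩)⟩ := hD
  · exact step_pos hL hby c1 c2 m1 m2 h
  · obtain ⟨L', h1, h2, h3⟩ := step_pos (D := fun u v => - D u v) (l := -l) hL hby
      (fun u hu => (c1 u hu).neg) (fun v hv => (c2 v hv).neg)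
      (fun v hv => (m1 v hv).neg) (fun u hu => (m2 u hu).neg) (by simp [h])
    refine ⟨L', h1, fun v hv => ?_, ?_⟩
    · obtain ⟨u, hu, e⟩ := h2 v hv
      exact ⟨u, hu, neg_injective e⟩
    · rcases h3 with e | e
      · exact Or.inl (neg_injective e)
      · exact Or.inr e

/-- **Sliding lemma.** -/
theorem slide (D : ℕ → ℝ → ℝ → ℝ) (l a θ : ℕ → ℝ) (m : ℕ) (ha : ∀ i ≤ m, a i ≤ θ i)
    (hD : ∀ i < m, Opp (D i) (a i) (θ i) (a (i + 1)) (θ (i + 1)))
    (h : ∀ i < m, D i (θ i) (θ (i + 1)) = l i) :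
    ∃ θ' : ℕ → ℝ, (∀ i ≤ m, θ' i ∈ Set.Icc (a i) (θ i)) ∧
      (∀ i < m, D i (θ' i) (θ' (i + 1)) = l i) ∧ ∃ i ≤ m, θ' i = a i := by
  suffices H : ∃ L ∈ Set.Icc (a m) (θ m),
      (∀ y ∈ Set.Icc L (θ m), ∃ θ' : ℕ → ℝ, (∀ i ≤ m, θ' i ∈ Set.Icc (a i) (θ i)) ∧
        (∀ i < m, D i (θ' i) (θ' (i + 1)) = l i) ∧ θ' m = y) ∧
      (∃ θ' : ℕ → ℝ, (∀ i ≤ m, θ' i ∈ Set.Icc (a i) (θ i)) ∧
        (∀ i < m, D i (θ' i) (θ' (i + 1)) = l i) ∧ θ' m = L ∧ ∃ i ≤ m, θ' i = a i) by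
    obtain ⟨L, _, _, θ', h1, h2, _, h4⟩ := H
    exact ⟨θ', h1, h2, h4⟩
  induction m with
  | zero =>
    refine ⟨a 0, ⟨le_refl _, ha 0 le_rfl⟩, fun y hy => ⟨fun _ => y, ?_, by simp, rfl⟩,
      fun _ => a 0, ?_, by simp, rfl, 0, le_rfl, rfl⟩
    · intro i hi
      obtain rfl : i = 0 := by omega
      exact hy
    · intro i hi
      obtain rfl : i = 0 := by omega
      exact ⟨le_refl _, ha 0 le_rfl⟩
  | succ m ih =>
    obtain ⟨L, hL, h1, θ₀, h2, h3, h4, k, hk, h5⟩ := ih (fun i hi => ha i (by omega))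
      (fun i hi => hD i (by omega)) (fun i hi => h i (by omega))
    obtain ⟨L', hL', h6, h7⟩ := step hL (ha (m + 1) le_rfl) (hD m (by omega)) (h m (by omega))
    have ext : ∀ (η : ℕ → ℝ) (v : ℝ), (∀ i ≤ m, η i ∈ Set.Icc (a i) (θ i)) →
        (∀ i < m, D i (η i) (η (i + 1)) = l i) → v ∈ Set.Icc (a (m + 1)) (θ (m + 1)) →
        D m (η m) v = l m →
        (∀ i ≤ m + 1, Function.update η (m + 1) v i ∈ Set.Icc (a i) (θ i)) ∧
        (∀ i < m + 1, D i (Function.update η (m + 1) v i)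
          (Function.update η (m + 1) v (i + 1)) = l i) := by
      intro η v e1 e2 e3 e4
      refine ⟨fun i hi => ?_, fun i hi => ?_⟩
      · rcases Nat.lt_or_ge i (m + 1) with hlt | hge
        · rw [Function.update_of_ne (by omega)]
          exact e1 i (by omega)
        · obtain rfl : i = m + 1 := by omega
          rw [Function.update_self]
          exact e3
      · rw [Function.update_of_ne (a := i) (by omega)]
        rcases Nat.lt_or_ge i m with hlt | hge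
        · rw [Function.update_of_ne (by omega)]
          exact e2 i hlt
        · obtain rfl : i = m := by omega
          rw [Function.update_self]
          exact e4
    refine ⟨L', hL', fun y hy => ?_, ?_⟩
    · obtain ⟨u, hu, e⟩ := h6 y hy
      obtain ⟨η, g1, g2, g3⟩ := h1 u hu
      obtain ⟨q1, q2⟩ := ext η y g1 g2 ⟨hL'.1.trans hy.1, hy.2⟩ (by rw [g3]; exact e)
      exact ⟨_, q1, q2, Function.update_self ..⟩
    · rcases h7 with e | e
      · obtain ⟨q1, q2⟩ := ext θ₀ L' h2 h3 hL' (by rw [h4]; exact e)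
        refine ⟨_, q1, q2, Function.update_self .., k, by omega, ?_⟩
        rw [Function.update_of_ne (by omega)]
        exact h5
      · obtain ⟨u, hu, e'⟩ := h6 L' ⟨le_refl _, hL'.2⟩
        obtain ⟨η, g1, g2, g3⟩ := h1 u hu
        obtain ⟨q1, q2⟩ := ext η L' g1 g2 hL' (by rw [g3]; exact e')
        refine ⟨_, q1, q2, Function.update_self .., m + 1, le_rfl, ?_⟩
        rw [Function.update_self]
        exact e

end Pool.Agent.Helper64.Ruler
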